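import Pool.Agent.H608R5.KL.Stm

/-!
Project KL (helper608), piece KT: trigonometry.
-/

set_option autoImplicit false

namespace Pool.Agent.TH11.KL

open Pool.Agent.H608R5.KL Finset

/-- integral version of `CC` -/
def cc (d : ZMod 4) : ℤ := if d = 0 then 1 else if d = 2 then -1 else 0

/-- integral version of `SS` -/
def ss (d : ZMod 4) : ℤ := if d = 1 then 1 else if d = 3 then -1 else 0

theorem CC_eq (d : ZMod 4) : CC d = (cc d : ℝ) := by
  unfold CC cc
  split_ifs <;> simp

theorem SS_eq (d : ZMod 4) : SS d = (ss d : ℝ) := by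
  unfold SS ss
  split_ifs <;> simp

theorem CC_sub (a b : ZMod 4) : CC (a - b) = CC a * CC b + SS a * SS b := by
  have h : ∀ a b : ZMod 4, cc (a - b) = cc a * cc b + ss a * ss b := by decide
  rw [CC_eq, CC_eq, CC_eq, SS_eq, SS_eq, h]
  push_cast
  ring

theorem SS_sub (a b : ZMod 4) : SS (a - b) = SS a * CC b - CC a * SS b := by
  have h : ∀ a b : ZMod 4, ss (a - b) = ss a * cc b - cc a * ss b := by decide
  rw [SS_eq, CC_eq, CC_eq, SS_eq, SS_eq, h]
  push_cast
  ring

theorem h4 : ∀ a : ZMod 4, a = 0 ∨ a = 1 ∨ a = 2 ∨ a = 3 := by decide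

theorem cos_val (a : ZMod 4) : Real.cos ((a.val : ℝ) * (Real.pi / 2)) = CC a := by
  rw [CC_eq]
  rcases h4 a with rfl | rfl | rfl | rfl
  · have e1 : (0 : ZMod 4).val = 0 := rfl
    have e2 : cc 0 = 1 := by decide
    rw [e1, e2]
    simp
  · have e1 : (1 : ZMod 4).val = 1 := rfl
    have e2 : cc 1 = 0 := by decide
    rw [e1, e2, Nat.cast_one, one_mul, Real.cos_pi_div_two, Int.cast_zero]
  · have e1 : (2 : ZMod 4).val = 2 := rfl
    have e2 : cc 2 = -1 := by decide
    have e3 : ((2 : ℕ) : ℝ) * (Real.pi / 2) = Real.pi := by push_cast; ring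
    rw [e1, e2, e3, Real.cos_pi]
    push_cast
    ring
  · have e1 : (3 : ZMod 4).val = 3 := rfl
    have e2 : cc 3 = 0 := by decide
    have e3 : ((3 : ℕ) : ℝ) * (Real.pi / 2) = Real.pi / 2 + Real.pi := by push_cast; ring
    rw [e1, e2, e3, Real.cos_add_pi, Real.cos_pi_div_two]
    push_cast
    ring

theorem sin_val (a : ZMod 4) : Real.sin ((a.val : ℝ) * (Real.pi / 2)) = SS a := by
  rw [SS_eq]
  rcases h4 a with rfl | rfl | rfl | rfl
  · have e1 : (0 : ZMod 4).val = 0 := rfl
    have e2 : ss 0 = 0 := by decide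
    rw [e1, e2]
    simp
  · have e1 : (1 : ZMod 4).val = 1 := rfl
    have e2 : ss 1 = 1 := by decide
    rw [e1, e2, Nat.cast_one, one_mul, Real.sin_pi_div_two, Int.cast_one]
  · have e1 : (2 : ZMod 4).val = 2 := rfl
    have e2 : ss 2 = 0 := by decide
    have e3 : ((2 : ℕ) : ℝ) * (Real.pi / 2) = Real.pi := by push_cast; ring
    rw [e1, e2, e3, Real.sin_pi]
    push_cast
    ring
  · have e1 : (3 : ZMod 4).val = 3 := rfl
    have e2 : ss 3 = -1 := by decide
    have e3 : ((3 : ℕ) : ℝ) * (Real.pi / 2) = Real.pi / 2 + Real.pi := by push_cast; ring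
    rw [e1, e2, e3, Real.sin_add_pi, Real.sin_pi_div_two]
    push_cast
    ring

theorem sqrt_eq : Real.sqrt (1 + (1 / 2 : ℝ) ^ 2) = Real.sqrt 5 / 2 := by
  rw [Real.sqrt_eq_iff_mul_self_eq (by positivity) (by positivity)]
  have h := Real.mul_self_sqrt (show (0 : ℝ) ≤ 5 by norm_num)
  nlinarith

theorem cos_at : Real.cos (Real.arctan (1 / 2)) = 2 * kp := by
  rw [Real.cos_arctan, sqrt_eq]
  unfold kp
  have h : Real.sqrt 5 ≠ 0 := by positivity
  field_simp

theorem sin_at : Real.sin (Real.arctan (1 / 2)) = kp := by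
  rw [Real.sin_arctan, sqrt_eq]
  unfold kp
  have h : Real.sqrt 5 ≠ 0 := by positivity
  field_simp

theorem t_KT : S_KT := by
  intro M a b x y
  have ht : ∀ (c : ZMod 4) (z : I M), th ((c, true, z) : V M) =
      (c.val : ℝ) * (Real.pi / 2) + Real.arctan (1 / 2) := by
    intro c z
    simp [th]
  have hf : ∀ (c : ZMod 4) (z : I M), th ((c, false, z) : V M) =
      (c.val : ℝ) * (Real.pi / 2) := by
    intro c z
    simp [th]
  refine ⟨?_, ?_, ?_, ?_, ?_⟩
  · intro τ
    have e : th ((a, τ, x) : V M) - th ((b, τ, y) : V M) =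
        (a.val : ℝ) * (Real.pi / 2) - (b.val : ℝ) * (Real.pi / 2) := by
      cases τ
      · rw [hf, hf]
      · rw [ht, ht]
        ring
    rw [e, Real.cos_sub, Real.sin_sub, cos_val, cos_val, sin_val, sin_val, CC_sub, SS_sub]
    exact ⟨by ring, by ring⟩
  · rw [hf, ht, ← sub_sub, Real.cos_sub, cos_at, sin_at, Real.cos_sub, Real.sin_sub, cos_val,
      cos_val, sin_val, sin_val, CC_sub, SS_sub]
    ring
  · rw [hf, ht, ← sub_sub, Real.sin_sub, cos_at, sin_at, Real.cos_sub, Real.sin_sub, cos_val,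
      cos_val, sin_val, sin_val, CC_sub, SS_sub]
    ring
  · rw [hf, ht, add_sub_right_comm, Real.cos_add, cos_at, sin_at, Real.cos_sub, Real.sin_sub,
      cos_val, cos_val, sin_val, sin_val, CC_sub, SS_sub]
  · rw [hf, ht, add_sub_right_comm, Real.sin_add, cos_at, sin_at, Real.cos_sub, Real.sin_sub,
      cos_val, cos_val, sin_val, sin_val, CC_sub, SS_sub]

end Pool.Agent.TH11.KL
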